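import Pool.Agent.Y860.BS.Indep

open Pool.Agent.Y860.BS

namespace Pool.Agent.Results.MP_4efd05_mp.EveryDimension

/-- **Q1 in every dimension `n ≥ 2`.** For every `n ≥ 2`, every `δ > 0` and every number `K`
(`K ≤ 2` if `n = 2`) there is an admissible potential `V ≥ 0` on `ℝⁿ × ℝ` (smooth, bounded with all
derivatives, not identically zero), which is radial, compactly supported in space and periodic in
time, for which `i ∂_t ψ = -Δ ψ + V ψ` has `K` linearly independent bound states, with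
`‖⟨x⟩^δ ψ(t)‖` in `L²(ℝⁿ)` bounded uniformly in `t`. -/
theorem result (n : ℕ) (hn : 2 ≤ n) (K : ℕ) (hK : 3 ≤ n ∨ K ≤ 2) (δ : ℝ) (hδ : 0 < δ) :
    ∃ V : Sp n → ℝ → ℝ, Admissible V ∧
      (∃ v : ℝ → ℝ → ℝ, ∀ x t, V x t = v ‖x‖ t) ∧
      (∃ ρ : ℝ, ∀ x t, ρ < ‖x‖ → V x t = 0) ∧
      (∃ T : ℝ, 0 < T ∧ ∀ x t, V x (t + T) = V x t) ∧
      ∃ ψ : Fin K → ℝ → Sp n → ℂ, (∀ j, IsBoundState V δ (ψ j)) ∧
        ∀ t, LinearIndependent ℂ (fun j => ψ j t) :=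
  main n hn K hK δ hδ

end Pool.Agent.Results.MP_4efd05_mp.EveryDimension
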